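import Pool.Agent.H571R3.Limits
set_option autoImplicit false

/-- For all `p ≥ 5` and `q`,
`cr_2(K_{p,q}) ≥ (p-4)^2/(8(p-2)) q^2 - (p-4)/2 q - 2(p-2)`. -/
theorem Pool.Agent.Results.MP_266831_co.GeneralLowerBound.result :
    ∀ p q : ℕ, 5 ≤ p →
      ((p : ℝ) - 4) ^ 2 / (8 * ((p : ℝ) - 2)) * (q : ℝ) ^ 2 - ((p : ℝ) - 4) / 2 * q
        - 2 * ((p : ℝ) - 2) ≤
      (Pool.Agent.Helper770.Crossing.biplanarCrossingNumber
        (completeBipartiteGraph (Fin p) (Fin q)) : ℝ) :=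
  fun p q hp => H571R3.Limits.lower_real p hp q
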