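import Pool.Agent.H571R3.Average

/-!
# Two-plane good drawings of `K_{p,q}`, all `p ≥ 10`

Whenever `K_{p,q}` is covered by two graphs that are drawn in two planes so that edges with a common
end do not cross, there are at least `p (p - 1) q (3 q - 16) / 480` crossings in total.
-/

set_option autoImplicit false

namespace Pool.Agent.Results.MP_266831_co.GoodDrawings

open Pool.Agent.Helper770.Crossing

/-- For all `p ≥ 10` and all `q`: if `G₁ ∪ G₂ = K_{p,q}` and `D₁`, `D₂` are drawings of `G₁`, `G₂`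
with finitely many crossings in which two edges that cross never have a common end, then the total
number of crossings is at least `p (p - 1) q (3 q - 16) / 480`. -/
theorem result (p q : ℕ) (hp : 10 ≤ p) (G₁ G₂ : SimpleGraph (Fin p ⊕ Fin q))
    (h : G₁ ⊔ G₂ = completeBipartiteGraph (Fin p) (Fin q)) (D₁ : Drawing G₁) (D₂ : Drawing G₂)
    (hf₁ : D₁.crossings.Finite) (hf₂ : D₂.crossings.Finite)
    (hg₁ : ∀ e f z, (s(e, f), z) ∈ D₁.crossings → ∀ v, v ∈ e → v ∉ f)
    (hg₂ : ∀ e f z, (s(e, f), z) ∈ D₂.crossings → ∀ v, v ∈ e → v ∉ f) :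
    (p : ℝ) * (p - 1) * q * (3 * q - 16) / 480 ≤
      (D₁.crossings.ncard : ℝ) + D₂.crossings.ncard := by
  have h1 := H571R3.average hp G₁ G₂ h D₁ D₂ hf₁ hf₂ hg₁ hg₂
  have h2 : (p : ℝ) * (p - 1) * (q * (3 * q - 16)) ≤
      480 * ((D₁.crossings.ncard : ℝ) + D₂.crossings.ncard) := by exact_mod_cast h1
  linarith

end Pool.Agent.Results.MP_266831_co.GoodDrawings
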