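import Pool.Agent.H571R3.Seven2
set_option autoImplicit false

/-- With `k = ⌊3q/20⌋` and `L = k(3q - 10k - 10)`, the biplanar crossing number of `K_{7,q}` is `L`
or `L + 1`, and it is `L` when `q` is not `7` or `13` modulo `20`. -/
theorem Pool.Agent.Results.MP_266831_co.SevenExact.result :
    ∀ q : ℕ, ∀ L : ℤ, L = ((3 * q / 20 : ℕ) : ℤ) * (3 * q - 10 * ((3 * q / 20 : ℕ) : ℤ) - 10) →
      (q % 20 ≠ 7 → q % 20 ≠ 13 → (Pool.Agent.Helper770.Crossing.biplanarCrossingNumber
        (completeBipartiteGraph (Fin 7) (Fin q)) : ℤ) = L) ∧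
      ((Pool.Agent.Helper770.Crossing.biplanarCrossingNumber
        (completeBipartiteGraph (Fin 7) (Fin q)) : ℤ) = L ∨
       (Pool.Agent.Helper770.Crossing.biplanarCrossingNumber
        (completeBipartiteGraph (Fin 7) (Fin q)) : ℤ) = L + 1) := by
  rintro q L rfl
  refine ⟨fun h1 h2 => H571R3.Seven.seven_exact q h1 h2, ?_⟩
  have h1 := H571R3.Seven.lower7 q
  have h2 := H571R3.Seven.seven_le q
  omega
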