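import Pool.Agent.H571R3.Limits
set_option autoImplicit false

open Filter Topology in
/-- For `p = 6, 7, 8`, `cr_2(K_{p,q})` is asymptotic to `(p-4)^2/(8(p-2)) q^2`. -/
theorem Pool.Agent.Results.MP_266831_co.SmallPAsymptotics.result :
    ∀ p : ℕ, p = 6 ∨ p = 7 ∨ p = 8 →
      Tendsto (fun q : ℕ => (Pool.Agent.Helper770.Crossing.biplanarCrossingNumber
        (completeBipartiteGraph (Fin p) (Fin q)) : ℝ) / (q : ℝ) ^ 2) atTop
        (𝓝 (((p : ℝ) - 4) ^ 2 / (8 * ((p : ℝ) - 2)))) :=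
  H571R3.Limits.limits
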